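import Mathlib

/-! A fast kernel evaluation of the number of connected spanning subgraphs of a small graph. -/

open Finset

namespace Pool.Agent.V11328.B7

/-- Pairs of vertices. -/
abbrev Pr := Fin 10 × Fin 10

def mask (q : Pr) : ℕ := 2 ^ q.1.val ||| 2 ^ q.2.val

def stp (R m : ℕ) : ℕ := Nat.rec R (fun _ _ => Nat.lor R m) (Nat.land R m)

def rnd (acc : List ℕ) (R : ℕ) : ℕ :=
  List.rec (motive := fun _ => ℕ → ℕ) (fun R => R) (fun m _ ih R => ih (stp R m)) acc R

def fin (acc : List ℕ) (k : ℕ) : ℕ → ℕ :=
  Nat.rec (fun R => R) (fun _ ih R => Bool.rec (ih (rnd acc R)) R (Nat.beq (rnd acc R) R)) k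

def cntM (l : List ℕ) : ℕ → List ℕ → ℕ := List.rec (motive := fun _ => ℕ → List ℕ → ℕ)
   (fun r acc => Nat.rec (Bool.rec 0 1 (Nat.beq (fin acc 9 1) 1023)) (fun _ _ => 0) r)
   (fun m _ ih r acc => Nat.rec (ih 0 acc) (fun r' _ => Nat.add (ih r acc) (ih r' (m :: acc))) r) l

lemma stp_eq (R m : ℕ) : stp R m = if R &&& m = 0 then R else R ||| m := by
  have h : ∀ x : ℕ, (Nat.rec R (fun _ _ => R ||| m) x : ℕ) = if x = 0 then R else R ||| m := by
    intro x
    cases x with
    | zero => rfl
    | succ n => rw [if_neg (Nat.succ_ne_zero n)]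
  exact h (R &&& m)

lemma testBit_mask (q : Pr) (i : ℕ) : (mask q).testBit i = true ↔ (i = q.1.val ∨ i = q.2.val) := by
  rw [mask, Nat.testBit_or, Nat.testBit_two_pow, Nat.testBit_two_pow, Bool.or_eq_true,
    decide_eq_true_eq, decide_eq_true_eq]
  constructor
  · rintro (h | h)
    · exact Or.inl h.symm
    · exact Or.inr h.symm
  · rintro (h | h)
    · exact Or.inl h.symm
    · exact Or.inr h.symm

lemma land_zero (R : ℕ) (q : Pr) :
    R &&& mask q = 0 ↔ (R.testBit q.1 = false ∧ R.testBit q.2 = false) := by
  constructor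
  · intro h
    have h1 : ∀ i, (R &&& mask q).testBit i = false := by intro i; rw [h]; simp
    constructor
    · have := h1 q.1
      rw [Nat.testBit_and, Bool.and_eq_false_iff] at this
      rcases this with h2 | h2
      · exact h2
      · have h3 := (testBit_mask q q.1).2 (Or.inl rfl)
        rw [h3] at h2; exact absurd h2 (by simp)
    · have := h1 q.2
      rw [Nat.testBit_and, Bool.and_eq_false_iff] at this
      rcases this with h2 | h2
      · exact h2
      · have h3 := (testBit_mask q q.2).2 (Or.inr rfl)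
        rw [h3] at h2; exact absurd h2 (by simp)
  · intro ⟨h1, h2⟩
    apply Nat.eq_of_testBit_eq
    intro i
    rw [Nat.testBit_and, Nat.zero_testBit, Bool.and_eq_false_iff]
    by_cases h : (mask q).testBit i = true
    · left
      rcases (testBit_mask q i).1 h with rfl | rfl
      · exact h1
      · exact h2
    · right; simpa using h

lemma mask_lt (q : Pr) : mask q < 2 ^ 10 := by
  apply Nat.or_lt_two_pow
  · exact Nat.pow_lt_pow_right (by norm_num) q.1.2
  · exact Nat.pow_lt_pow_right (by norm_num) q.2.2

lemma stp_lt {R : ℕ} (h : R < 2 ^ 10) (q : Pr) : stp R (mask q) < 2 ^ 10 := by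
  rw [stp_eq]
  split_ifs
  · exact h
  · exact Nat.or_lt_two_pow h (mask_lt q)

/-- The set of vertices encoded by a number. -/
def bits (R : ℕ) : Finset (Fin 10) := univ.filter (fun v => R.testBit v.val = true)

lemma mem_bits (R : ℕ) (v : Fin 10) : v ∈ bits R ↔ R.testBit v.val = true := by simp [bits]

lemma bits_inj {R S : ℕ} (hR : R < 2 ^ 10) (hS : S < 2 ^ 10) (h : bits R = bits S) : R = S := by
  apply Nat.eq_of_testBit_eq
  intro i
  by_cases hi : i < 10
  · have h1 : (⟨i, hi⟩ : Fin 10) ∈ bits R ↔ (⟨i, hi⟩ : Fin 10) ∈ bits S := by rw [h]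
    rw [mem_bits, mem_bits] at h1
    simp only at h1
    cases h2 : R.testBit i <;> cases h3 : S.testBit i <;> simp_all
  · have e1 : R.testBit i = false :=
      Nat.testBit_lt_two_pow (lt_of_lt_of_le hR (Nat.pow_le_pow_right (by norm_num) (by omega)))
    have e2 : S.testBit i = false :=
      Nat.testBit_lt_two_pow (lt_of_lt_of_le hS (Nat.pow_le_pow_right (by norm_num) (by omega)))
    rw [e1, e2]

lemma mem_bits_stp (R : ℕ) (q : Pr) (v : Fin 10) :
    v ∈ bits (stp R (mask q)) ↔ (v ∈ bits R ∨ ((q.1 ∈ bits R ∨ q.2 ∈ bits R) ∧ (v = q.1 ∨ v = q.2))) := by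
  rw [stp_eq]
  by_cases h : R &&& mask q = 0
  · rw [if_pos h]
    rw [land_zero] at h
    simp only [mem_bits]
    rw [h.1, h.2]
    simp
  · rw [if_neg h]
    rw [land_zero] at h
    have h' : q.1 ∈ bits R ∨ q.2 ∈ bits R := by
      rw [mem_bits, mem_bits]
      by_contra hcon
      apply h
      push Not at hcon
      simpa using hcon
    rw [mem_bits, Nat.testBit_or, Bool.or_eq_true, testBit_mask, mem_bits]
    simp only [h', true_and, Fin.ext_iff]

/-- The graph with the given list of edges. -/
def gr (acc : List Pr) : SimpleGraph (Fin 10) :=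
  SimpleGraph.fromEdgeSet (((acc.map (fun q => s(q.1, q.2))).toFinset : Finset (Sym2 (Fin 10))) :
    Set (Sym2 (Fin 10)))

lemma gr_adj {acc : List Pr} {q : Pr} (hq : q ∈ acc) (hne : q.1 ≠ q.2) : (gr acc).Adj q.1 q.2 := by
  rw [gr, SimpleGraph.fromEdgeSet_adj]
  refine ⟨?_, hne⟩
  rw [mem_coe, List.mem_toFinset, List.mem_map]
  exact ⟨q, hq, rfl⟩

lemma rnd_nil (R : ℕ) : rnd [] R = R := rfl

lemma rnd_cons (m : ℕ) (acc : List ℕ) (R : ℕ) : rnd (m :: acc) R = rnd acc (stp R m) := rfl

lemma rnd_lt (acc : List Pr) {R : ℕ} (h : R < 2 ^ 10) : rnd (acc.map mask) R < 2 ^ 10 := by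
  induction acc generalizing R with
  | nil => simpa [rnd_nil] using h
  | cons q acc ih =>
    rw [List.map_cons, rnd_cons]
    exact ih (stp_lt h q)

lemma rnd_mono (acc : List Pr) (R : ℕ) : bits R ⊆ bits (rnd (acc.map mask) R) := by
  induction acc generalizing R with
  | nil => simp [rnd_nil]
  | cons q acc ih =>
    rw [List.map_cons, rnd_cons]
    refine subset_trans ?_ (ih _)
    intro v hv
    rw [mem_bits_stp]
    exact Or.inl hv

/-- Soundness of one round. -/
lemma rnd_sound (full acc : List Pr) (hsub : ∀ q ∈ acc, q ∈ full) (hne : ∀ q ∈ full, q.1 ≠ q.2)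
    (R : ℕ) (h : ∀ v ∈ bits R, (gr full).Reachable 0 v) :
    ∀ v ∈ bits (rnd (acc.map mask) R), (gr full).Reachable 0 v := by
  induction acc generalizing R with
  | nil => simpa [rnd_nil] using h
  | cons q acc ih =>
    rw [List.map_cons, rnd_cons]
    apply ih (fun q' hq' => hsub q' (List.mem_cons_of_mem _ hq'))
    intro v hv
    rw [mem_bits_stp] at hv
    have hadj : (gr full).Adj q.1 q.2 := gr_adj (hsub q (by simp)) (hne q (hsub q (by simp)))
    rcases hv with hv | ⟨h1, h2⟩
    · exact h v hv
    · rcases h1 with h1 | h1 <;> rcases h2 with rfl | rfl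
      · exact h _ h1
      · exact (h _ h1).trans hadj.reachable
      · exact (h _ h1).trans hadj.symm.reachable
      · exact h _ h1

/-- A round without change certifies closedness. -/
lemma rnd_closed (acc : List Pr) (R : ℕ) (h : bits (rnd (acc.map mask) R) = bits R) :
    ∀ q ∈ acc, (q.1 ∈ bits R ↔ q.2 ∈ bits R) := by
  induction acc generalizing R with
  | nil => simp
  | cons q acc ih =>
    rw [List.map_cons, rnd_cons] at h
    have h1 : bits R ⊆ bits (stp R (mask q)) := by
      intro v hv
      rw [mem_bits_stp]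
      exact Or.inl hv
    have h2 := rnd_mono acc (stp R (mask q))
    have h3 : bits (stp R (mask q)) = bits R := by
      apply subset_antisymm _ h1
      exact h2.trans (le_of_eq h)
    have h4 : bits (rnd (acc.map mask) (stp R (mask q))) = bits (stp R (mask q)) := by
      rw [h, h3]
    have h5 := ih _ h4
    intro q' hq'
    rw [List.mem_cons] at hq'
    rcases hq' with rfl | hq'
    · constructor
      · intro hh
        rw [← h3, mem_bits_stp]
        exact Or.inr ⟨Or.inl hh, Or.inr rfl⟩
      · intro hh
        rw [← h3, mem_bits_stp]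
        exact Or.inr ⟨Or.inr hh, Or.inl rfl⟩
    · rw [← h3]
      exact h5 q' hq'

lemma fin_zero (acc : List ℕ) (R : ℕ) : fin acc 0 R = R := rfl

lemma fin_succ (acc : List ℕ) (k R : ℕ) :
    fin acc (k + 1) R = if rnd acc R = R then R else fin acc k (rnd acc R) := by
  change (Bool.rec (motive := fun _ => ℕ) (fin acc k (rnd acc R)) R
    (Nat.beq (rnd acc R) R) : ℕ) = _
  by_cases h : rnd acc R = R
  · rw [if_pos h, h]
    have : Nat.beq R R = true := Nat.beq_refl R
    rw [this]
  · rw [if_neg h]
    have : Nat.beq (rnd acc R) R = false := by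
      rw [← Bool.not_eq_true]
      intro hh
      exact h (Nat.eq_of_beq_eq_true hh)
    rw [this]

lemma fin_sound (acc : List Pr) (hne : ∀ q ∈ acc, q.1 ≠ q.2) (k R : ℕ)
    (h : ∀ v ∈ bits R, (gr acc).Reachable 0 v) :
    ∀ v ∈ bits (fin (acc.map mask) k R), (gr acc).Reachable 0 v := by
  induction k generalizing R with
  | zero => simpa [fin_zero] using h
  | succ k ih =>
    rw [fin_succ]
    split_ifs
    · exact h
    · exact ih _ (rnd_sound acc acc (fun _ h => h) hne R h)

lemma fin_complete (acc : List Pr) (k R : ℕ) (hR : R < 2 ^ 10) (hk : 10 ≤ #(bits R) + k) :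
    (∀ q ∈ acc, (q.1 ∈ bits (fin (acc.map mask) k R) ↔ q.2 ∈ bits (fin (acc.map mask) k R))) ∧
      bits R ⊆ bits (fin (acc.map mask) k R) ∧ fin (acc.map mask) k R < 2 ^ 10 := by
  induction k generalizing R with
  | zero =>
    rw [fin_zero]
    refine ⟨?_, subset_rfl, hR⟩
    have : bits R = univ := by
      rw [← Finset.card_eq_iff_eq_univ, Fintype.card_fin]
      have := card_le_univ (bits R)
      rw [Fintype.card_fin] at this
      omega
    intro q _
    rw [this]
    simp
  | succ k ih =>
    rw [fin_succ]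
    split_ifs with h
    · exact ⟨rnd_closed acc R (by rw [h]), subset_rfl, hR⟩
    · have hlt := rnd_lt acc hR
      have hss : bits R ⊂ bits (rnd (acc.map mask) R) := by
        refine (rnd_mono acc R).ssubset_of_ne ?_
        intro heq
        exact h (bits_inj hlt hR heq.symm)
      have hc := card_lt_card hss
      obtain ⟨h1, h2, h3⟩ := ih _ hlt (by omega)
      exact ⟨h1, hss.1.trans h2, h3⟩

/-- Correctness of the connectivity test. -/
theorem fin_iff (acc : List Pr) (hne : ∀ q ∈ acc, q.1 ≠ q.2) :
    fin (acc.map mask) 9 1 = 1023 ↔ (gr acc).Connected := by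
  have hb1 : bits 1 = {0} := by decide
  constructor
  · intro h
    have h1 := fin_sound acc hne 9 1 (by
      intro v hv
      rw [hb1, mem_singleton] at hv
      subst hv
      exact SimpleGraph.Reachable.refl _)
    rw [h] at h1
    have hall : ∀ v : Fin 10, v ∈ bits 1023 := by decide
    exact { preconnected := fun u v => (h1 u (hall u)).symm.trans (h1 v (hall v)) }
  · intro h
    obtain ⟨h1, h2, h3⟩ := fin_complete acc 9 1 (by norm_num) (by rw [hb1]; simp)
    have h0 : (0 : Fin 10) ∈ bits (fin (acc.map mask) 9 1) := h2 (by rw [hb1]; simp)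
    have hstep : ∀ u v, (gr acc).Adj u v → u ∈ bits (fin (acc.map mask) 9 1) →
        v ∈ bits (fin (acc.map mask) 9 1) := by
      intro u v huv hu
      rw [gr, SimpleGraph.fromEdgeSet_adj, mem_coe, List.mem_toFinset, List.mem_map] at huv
      obtain ⟨⟨q, hq, hqe⟩, _⟩ := huv
      have := h1 q hq
      rw [Sym2.eq_iff] at hqe
      rcases hqe with ⟨rfl, rfl⟩ | ⟨rfl, rfl⟩
      · exact this.1 hu
      · exact this.2 hu
    have hw : ∀ (u v : Fin 10) (_ : (gr acc).Walk u v), u ∈ bits (fin (acc.map mask) 9 1) →
        v ∈ bits (fin (acc.map mask) 9 1) := by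
      intro u v w
      induction w with
      | nil => exact id
      | cons hadj p ih => exact fun hu => ih (hstep _ _ hadj hu)
    have hall : ∀ v, v ∈ bits (fin (acc.map mask) 9 1) := by
      intro v
      obtain ⟨w⟩ := h.preconnected 0 v
      exact hw 0 v w h0
    apply bits_inj h3 (by norm_num)
    ext v
    simp only [hall v, true_iff]
    revert v
    decide

lemma cntM_nil_zero (acc : List ℕ) : cntM [] 0 acc = if fin acc 9 1 = 1023 then 1 else 0 := by
  change (Bool.rec (motive := fun _ => ℕ) 0 1 (Nat.beq (fin acc 9 1) 1023) : ℕ) = _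
  by_cases h : fin acc 9 1 = 1023
  · rw [if_pos h, h]
    rfl
  · rw [if_neg h]
    have : Nat.beq (fin acc 9 1) 1023 = false := by
      rw [← Bool.not_eq_true]
      intro hh
      exact h (Nat.eq_of_beq_eq_true hh)
    rw [this]

lemma cntM_nil_succ (r : ℕ) (acc : List ℕ) : cntM [] (r + 1) acc = 0 := rfl

lemma cntM_cons_zero (m : ℕ) (l acc : List ℕ) : cntM (m :: l) 0 acc = cntM l 0 acc := rfl

lemma cntM_cons_succ (m : ℕ) (l acc : List ℕ) (r : ℕ) :
    cntM (m :: l) (r + 1) acc = cntM l (r + 1) acc + cntM l r (m :: acc) := rfl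

/-- The set of unordered pairs of a list. -/
def es (l : List Pr) : Finset (Sym2 (Fin 10)) := (l.map (fun q => s(q.1, q.2))).toFinset

open Classical in
/-- The recursion counts the connected graphs. -/
theorem cntM_eq (l : List Pr) (hnd : (l.map (fun q : Pr => s(q.1, q.2))).Nodup) (r : ℕ)
    (acc : List Pr) (hl : ∀ q ∈ l, q.1 ≠ q.2) (hacc : ∀ q ∈ acc, q.1 ≠ q.2) :
    cntM (l.map mask) r (acc.map mask) =
      #(((es l).powersetCard r).filter (fun T =>
        (SimpleGraph.fromEdgeSet ((T ∪ es acc : Finset (Sym2 (Fin 10))) :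
          Set (Sym2 (Fin 10)))).Connected)) := by
  induction l generalizing r acc with
  | nil =>
    cases r with
    | zero =>
      rw [List.map_nil, cntM_nil_zero]
      have he : es [] = ∅ := rfl
      rw [he, powersetCard_zero, filter_singleton]
      by_cases h : fin (acc.map mask) 9 1 = 1023
      · rw [if_pos h, if_pos]
        · simp
        · have := (fin_iff acc hacc).1 h
          simpa [gr, es] using this
      · rw [if_neg h, if_neg]
        · simp
        · intro hcon
          apply h
          apply (fin_iff acc hacc).2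
          simpa [gr, es] using hcon
    | succ r =>
      rw [List.map_nil, cntM_nil_succ]
      have he : es [] = ∅ := rfl
      rw [he, powersetCard_eq_empty.2 (by simp)]
      simp
  | cons q l ih =>
    rw [List.map_cons, List.nodup_cons] at hnd
    have hl' : ∀ q ∈ l, q.1 ≠ q.2 := fun q' h => hl q' (List.mem_cons_of_mem _ h)
    have he : es (q :: l) = insert s(q.1, q.2) (es l) := by
      simp [es]
    have hq : s(q.1, q.2) ∉ es l := by
      rw [es, List.mem_toFinset]
      exact hnd.1
    rw [List.map_cons, he]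
    cases r with
    | zero =>
      rw [cntM_cons_zero, ih hnd.2 0 acc hl' hacc, powersetCard_zero, powersetCard_zero]
    | succ r =>
      rw [cntM_cons_succ, ih hnd.2 (r + 1) acc hl' hacc]
      have hih := ih hnd.2 r (q :: acc) hl' (by
        intro q' hq'
        rw [List.mem_cons] at hq'
        rcases hq' with rfl | h
        · exact hl _ (by simp)
        · exact hacc q' h)
      rw [List.map_cons] at hih
      rw [hih, powersetCard_succ_insert hq, filter_union, card_union_of_disjoint]
      · congr 1
        rw [filter_image, card_image_of_injOn]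
        · congr 1
          apply filter_congr
          intro T _
          have : T ∪ es (q :: acc) = insert s(q.1, q.2) T ∪ es acc := by
            simp [es]
          rw [this]
        · intro T hT T' hT' hTT
          simp only [coe_filter, Set.mem_ofPred_eq, mem_powersetCard] at hT hT'
          have h1 : s(q.1, q.2) ∉ T := fun h => hq (hT.1.1 h)
          have h2 : s(q.1, q.2) ∉ T' := fun h => hq (hT'.1.1 h)
          rw [← erase_insert h1, ← erase_insert h2]
          exact congrArg (fun S => Finset.erase S s(q.1, q.2)) hTT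
      · rw [Finset.disjoint_left]
        intro T hT hT'
        simp only [mem_filter, mem_powersetCard, mem_image] at hT hT'
        obtain ⟨⟨T', _, rfl⟩, _⟩ := hT'
        exact hq (hT.1.1 (mem_insert_self _ _))

end Pool.Agent.V11328.B7
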